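import Mathlib

/-!
# Alternating sums over the subset sums in characteristic `p`

Let `ξ_i`, `i < r`, be elements of a field of characteristic `p > 2 ^ r`.  If the alternating sums of
the `(x ^ p - x) H (x)`, where `x` runs through the subset sums of the `ξ_i`, are zero for all
polynomials `H` of small degree, and no `ξ_i` is zero, then all `ξ_i` lie in the prime field.
-/

set_option autoImplicit false

namespace Pool.Agent.Q42.SM

open Finset Polynomial

section

variable {F : Type} [Field F] [DecidableEq F] {p : ℕ} [hp : Fact p.Prime] [CharP F p] {r : ℕ}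

omit hp in
theorem fib_zero (n : ℕ) (ξ : Fin r → F) (hpr : 2 ^ r < p) (hn : 2 ^ r ≤ n + 1)
    (hid : ∀ H : F[X], H.natDegree ≤ n → ∑ S : Finset (Fin r), (-1 : F) ^ S.card *
      (((∑ i ∈ S, ξ i) ^ p - ∑ i ∈ S, ξ i) * H.eval (∑ i ∈ S, ξ i)) = 0)
    (x : F) (hx : x ^ p ≠ x) :
    ∑ S ∈ (univ : Finset (Finset (Fin r))).filter (fun S => ∑ i ∈ S, ξ i = x),
      (-1 : ℤ) ^ S.card = 0 := by
  set X' : Finset (Fin r) → F := fun S => ∑ i ∈ S, ξ i with hX'
  change ∑ S ∈ (univ : Finset (Finset (Fin r))).filter (fun S => X' S = x),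
      (-1 : ℤ) ^ S.card = 0
  set V : Finset F := (univ : Finset (Finset (Fin r))).image X' with hV
  have hVc : V.card ≤ 2 ^ r := by
    refine card_image_le.trans ?_
    simp
  by_cases hxV : x ∈ V
  swap
  · rw [filter_false_of_mem, sum_empty]
    intro S _ h
    exact hxV (by rw [hV, mem_image]; exact ⟨S, mem_univ S, h⟩)
  set H : F[X] := ∏ y ∈ V.erase x, (X - C y) with hH
  have hdeg : H.natDegree ≤ n := by
    rw [hH, natDegree_prod_of_monic _ _ fun y _ => monic_X_sub_C y]
    simp only [natDegree_X_sub_C, sum_const, smul_eq_mul, mul_one]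
    rw [card_erase_of_mem hxV]
    omega
  have h1 := hid H hdeg
  have h2 : ∑ S : Finset (Fin r), (-1 : F) ^ S.card *
      (((∑ i ∈ S, ξ i) ^ p - ∑ i ∈ S, ξ i) * H.eval (∑ i ∈ S, ξ i)) =
      (∑ S ∈ (univ : Finset (Finset (Fin r))).filter (fun S => X' S = x),
        (-1 : F) ^ S.card) * ((x ^ p - x) * H.eval x) := by
    rw [sum_mul, sum_filter]
    refine sum_congr rfl fun S _ => ?_
    change (-1 : F) ^ S.card * ((X' S ^ p - X' S) * H.eval (X' S)) = _
    split_ifs with h
    · rw [h]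
    · have hmem : X' S ∈ V.erase x := mem_erase.2 ⟨h, by rw [hV, mem_image]; exact ⟨S, mem_univ S, rfl⟩⟩
      have : H.eval (X' S) = 0 := by
        rw [hH, eval_prod]
        exact prod_eq_zero hmem (by simp)
      rw [this]
      ring
  rw [h2] at h1
  have h3 : H.eval x ≠ 0 := by
    rw [hH, eval_prod, prod_ne_zero_iff]
    intro y hy
    rw [eval_sub, eval_X, eval_C, sub_ne_zero]
    exact (ne_of_mem_erase hy).symm
  have h4 : (∑ S ∈ (univ : Finset (Finset (Fin r))).filter (fun S => X' S = x),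
        (-1 : F) ^ S.card) = 0 := by
    rcases mul_eq_zero.1 h1 with h | h
    · exact h
    · exact absurd h (mul_ne_zero (sub_ne_zero.2 hx) h3)
  set m : ℤ := ∑ S ∈ (univ : Finset (Finset (Fin r))).filter (fun S => X' S = x),
      (-1 : ℤ) ^ S.card with hm
  have h5 : (m : F) = 0 := by
    rw [hm]
    push_cast
    exact h4
  have h6 : (p : ℤ) ∣ m := (CharP.intCast_eq_zero_iff F p m).1 h5
  have h7 : |m| ≤ 2 ^ r := by
    rw [hm]
    refine (abs_sum_le_sum_abs _ _).trans ?_
    calc ∑ S ∈ (univ : Finset (Finset (Fin r))).filter (fun S => X' S = x),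
          |(-1 : ℤ) ^ S.card| ≤ ∑ S : Finset (Fin r), (1 : ℤ) := by
            refine (sum_le_sum_of_subset_of_nonneg (filter_subset _ _)
              fun S _ _ => abs_nonneg _).trans ?_
            refine sum_le_sum fun S _ => ?_
            rw [abs_pow, abs_neg, abs_one, one_pow]
      _ = 2 ^ r := by simp
  by_contra hne
  have h8 : (p : ℤ) ≤ |m| := Int.le_of_dvd (abs_pos.2 hne) ((dvd_abs _ _).2 h6)
  have h9 : ((2 : ℤ) ^ r) < p := by exact_mod_cast hpr
  linarith

omit hp [CharP F p] in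
/-- the alternating sums of the functions which vanish on the prime field -/
theorem alt_fun (ξ : Fin r → F)
    (h : ∀ x : F, x ^ p ≠ x → ∑ S ∈ (univ : Finset (Finset (Fin r))).filter
      (fun S => ∑ i ∈ S, ξ i = x), (-1 : ℤ) ^ S.card = 0)
    (g : F → ℂ) (hg : ∀ x, x ^ p = x → g x = 0) :
    ∑ S : Finset (Fin r), (-1 : ℂ) ^ S.card * g (∑ i ∈ S, ξ i) = 0 := by
  set X' : Finset (Fin r) → F := fun S => ∑ i ∈ S, ξ i with hX'
  have h1 : ∑ S : Finset (Fin r), (-1 : ℂ) ^ S.card * g (X' S) =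
      ∑ x ∈ (univ : Finset (Finset (Fin r))).image X',
        ∑ S ∈ (univ : Finset (Finset (Fin r))).filter (fun S => X' S = x),
          (-1 : ℂ) ^ S.card * g (X' S) :=
    (sum_fiberwise_of_maps_to (fun S _ => mem_image_of_mem X' (mem_univ S)) _).symm
  change ∑ S : Finset (Fin r), (-1 : ℂ) ^ S.card * g (X' S) = 0
  rw [h1]
  refine sum_eq_zero fun x _ => ?_
  have h2 : ∑ S ∈ (univ : Finset (Finset (Fin r))).filter (fun S => X' S = x),
          (-1 : ℂ) ^ S.card * g (X' S) =
      ((∑ S ∈ (univ : Finset (Finset (Fin r))).filter (fun S => X' S = x),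
          (-1 : ℤ) ^ S.card : ℤ) : ℂ) * g x := by
    push_cast
    rw [sum_mul]
    refine sum_congr rfl fun S hS => ?_
    rw [(mem_filter.1 hS).2]
  rw [h2]
  by_cases hx : x ^ p = x
  · rw [hg x hx, mul_zero]
  · have h3 := h x hx
    rw [show (∑ S ∈ (univ : Finset (Finset (Fin r))).filter (fun S => X' S = x),
          (-1 : ℤ) ^ S.card : ℤ) = 0 from h3]
    simp

end

section

variable {F : Type} [Field F] {p : ℕ} [hp : Fact p.Prime] [CharP F p] {r : ℕ}

omit [CharP F p] in
/-- the prime field -/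
theorem frob_fixed [Algebra (ZMod p) F] (x : F) (hx : x ^ p = x) :
    ∃ a : ZMod p, x = a • (1 : F) := by
  have hc : Fintype.card (ZMod p) = p := ZMod.card p
  have h0 : (X ^ p - X : (ZMod p)[X]).roots = (univ : Finset (ZMod p)).val := by
    have := FiniteField.roots_X_pow_card_sub_X (ZMod p)
    rwa [hc] at this
  have hdeg : (X ^ p - X : (ZMod p)[X]).natDegree = p :=
    FiniteField.X_pow_card_sub_X_natDegree_eq (ZMod p) hp.out.one_lt
  have hmon : (X ^ p - X : (ZMod p)[X]).Monic := by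
    refine monic_X_pow_sub ?_
    rw [degree_X]
    exact_mod_cast hp.out.one_lt
  have h1 := prod_multiset_X_sub_C_of_monic_of_roots_card_eq hmon (by
    rw [h0, hdeg, Finset.card_val, Finset.card_univ, hc])
  rw [h0] at h1
  have h1' : (∏ a : ZMod p, (X - C a) : (ZMod p)[X]) = X ^ p - X := h1
  have h2 := congrArg (fun q : (ZMod p)[X] => (q.map (algebraMap (ZMod p) F)).eval x) h1'
  simp only [Polynomial.map_prod, Polynomial.map_sub, map_X, map_C, eval_prod, eval_sub, eval_X,
    eval_C, Polynomial.map_pow, eval_pow] at h2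
  rw [hx, sub_self, prod_eq_zero_iff] at h2
  obtain ⟨a, -, ha⟩ := h2
  refine ⟨a, ?_⟩
  rw [Algebra.smul_def, mul_one]
  exact sub_eq_zero.1 ha

/-- a linear functional which is not zero at fewer than `p` given nonzero vectors -/
theorem exists_functional {V : Type} [AddCommGroup V] [Module (ZMod p) V] (T : Finset V)
    (hT : ∀ v ∈ T, v ≠ 0) (hc : T.card < p) :
    ∃ μ : V →ₗ[ZMod p] ZMod p, ∀ v ∈ T, μ v ≠ 0 := by
  classical
  induction T using Finset.induction_on with
  | empty => exact ⟨0, by simp⟩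
  | insert w T hw ih =>
    rw [card_insert_of_notMem hw] at hc
    obtain ⟨μ, hμ⟩ := ih (fun v hv => hT v (mem_insert_of_mem hv)) (by omega)
    by_cases hw0 : μ w = 0
    swap
    · refine ⟨μ, fun v hv => ?_⟩
      rcases mem_insert.1 hv with rfl | hv
      exacts [hw0, hμ v hv]
    obtain ⟨ν, hν, -⟩ := Submodule.exists_le_ker_of_notMem
      (show w ∉ (⊥ : Submodule (ZMod p) V) by
        rw [Submodule.mem_bot]
        exact hT w (mem_insert_self _ _))
    -- the bad multiples of `ν`
    set B : Finset (ZMod p) := insert 0 (T.image fun v => -(μ v) * (ν v)⁻¹) with hB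
    have hBc : B.card < Fintype.card (ZMod p) := by
      rw [ZMod.card p]
      have h1 : B.card ≤ (T.image fun v => -(μ v) * (ν v)⁻¹).card + 1 := card_insert_le _ _
      have h2 : (T.image fun v => -(μ v) * (ν v)⁻¹).card ≤ T.card := card_image_le
      omega
    obtain ⟨t, ht⟩ : ∃ t, t ∉ B := by
      by_contra hcon
      push Not at hcon
      have : B = univ := eq_univ_iff_forall.2 hcon
      rw [this, card_univ] at hBc
      exact lt_irrefl _ hBc
    refine ⟨μ + t • ν, fun v hv => ?_⟩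
    rw [LinearMap.add_apply, LinearMap.smul_apply, smul_eq_mul]
    rcases mem_insert.1 hv with rfl | hv
    · rw [hw0, zero_add]
      refine mul_ne_zero ?_ hν
      rintro rfl
      exact ht (mem_insert_self _ _)
    · intro h
      by_cases hv0 : ν v = 0
      · rw [hv0, mul_zero, add_zero] at h
        exact hμ v hv h
      · apply ht
        rw [hB]
        refine mem_insert_of_mem (mem_image.2 ⟨v, hv, ?_⟩)
        have : t * ν v = -μ v := by linear_combination h
        rw [← this, mul_assoc, mul_inv_cancel₀ hv0, mul_one]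

theorem char_sum (χ : AddChar F ℂ) (ξ : Fin r → F) (S : Finset (Fin r)) :
    χ (∑ i ∈ S, ξ i) = ∏ i ∈ S, χ (ξ i) := by
  classical
  induction S using Finset.induction_on with
  | empty => simp
  | insert i S hi ih => rw [sum_insert hi, prod_insert hi, AddChar.map_add_eq_mul, ih]

theorem char_prod (χ : AddChar F ℂ) (ξ : Fin r → F) :
    ∑ S : Finset (Fin r), (-1 : ℂ) ^ S.card * χ (∑ i ∈ S, ξ i) = ∏ i, (1 - χ (ξ i)) := by
  classical
  have h1 : ∏ i, (1 - χ (ξ i)) = ∏ i, (-χ (ξ i) + 1) := prod_congr rfl fun i _ => by ring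
  rw [h1, prod_add, powerset_univ]
  refine sum_congr rfl fun S _ => ?_
  rw [prod_const_one, mul_one, char_sum, prod_neg]

/-- the conclusion: all `ξ_i` lie in the prime field -/
theorem all_fixed (ξ : Fin r → F) (hpr : r + 1 < p) (h0 : ∀ i, ξ i ≠ 0)
    (h : ∀ g : F → ℂ, (∀ x, x ^ p = x → g x = 0) →
      ∑ S : Finset (Fin r), (-1 : ℂ) ^ S.card * g (∑ i ∈ S, ξ i) = 0) (i : Fin r) :
    ξ i ^ p = ξ i := by
  classical
  let _ : Algebra (ZMod p) F := ZMod.algebra F p
  by_contra hi
  -- a functional which is `1` at `1` and not zero at the `ξ_j`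
  obtain ⟨μ, hμ⟩ := exists_functional (p := p) (insert 1 (univ.image ξ)) (by
    intro v hv
    rcases mem_insert.1 hv with rfl | hv
    · exact one_ne_zero
    · obtain ⟨j, -, rfl⟩ := mem_image.1 hv
      exact h0 j) (by
    have h1 : (insert 1 (univ.image ξ)).card ≤ (univ.image ξ).card + 1 := card_insert_le _ _
    have h2 : (univ.image ξ).card ≤ r := by
      refine card_image_le.trans ?_
      simp
    omega)
  have hμ1 : μ 1 ≠ 0 := hμ 1 (mem_insert_self _ _)
  have hμj : ∀ j, μ (ξ j) ≠ 0 := fun j =>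
    hμ _ (mem_insert_of_mem (mem_image_of_mem _ (mem_univ j)))
  -- a functional which is `1` at `1` and zero at `ξ_i`
  obtain ⟨ν, hν1, hν⟩ := Submodule.exists_le_ker_of_notMem
    (show (1 : F) ∉ Submodule.span (ZMod p) {ξ i} by
      intro hmem
      obtain ⟨a, ha⟩ := Submodule.mem_span_singleton.1 hmem
      apply hi
      have ha0 : a ≠ 0 := by
        rintro rfl
        rw [zero_smul] at ha
        exact one_ne_zero ha.symm
      have h1 : ξ i = algebraMap (ZMod p) F a⁻¹ := by
        rw [Algebra.smul_def] at ha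
        rw [map_inv₀, eq_comm, inv_eq_iff_eq_inv, eq_comm]
        exact (eq_inv_of_mul_eq_one_left ha).symm
      rw [h1, ← map_pow, ZMod.pow_card])
  have hνi : ν (ξ i) = 0 := hν (Submodule.mem_span_singleton_self _)
  set χ1 : AddChar F ℂ := (ZMod.stdAddChar (N := p)).compAddMonoidHom
    ((μ 1)⁻¹ • μ).toAddMonoidHom with hχ1
  set χ2 : AddChar F ℂ := (ZMod.stdAddChar (N := p)).compAddMonoidHom
    ((ν 1)⁻¹ • ν).toAddMonoidHom with hχ2
  have e1 : ∀ x, χ1 x = ZMod.stdAddChar ((μ 1)⁻¹ * μ x) := fun x => rfl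
  have e2 : ∀ x, χ2 x = ZMod.stdAddChar ((ν 1)⁻¹ * ν x) := fun x => rfl
  have h2 := h (fun x => χ1 x - χ2 x) (by
    intro x hx
    obtain ⟨a, rfl⟩ := frob_fixed x hx
    simp only [e1, e2, map_smul, smul_eq_mul]
    have h3 : (μ 1)⁻¹ * (a * μ 1) = a := by field_simp
    have h4 : (ν 1)⁻¹ * (a * ν 1) = a := by field_simp
    rw [h3, h4, sub_self])
  simp only [mul_sub, sum_sub_distrib] at h2
  rw [char_prod, char_prod] at h2
  have h3 : ∏ j, (1 - χ2 (ξ j)) = 0 := by
    refine prod_eq_zero (mem_univ i) ?_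
    rw [e2, hνi, mul_zero, AddChar.map_zero_eq_one, sub_self]
  rw [h3, sub_zero, prod_eq_zero_iff] at h2
  obtain ⟨j, -, hj⟩ := h2
  rw [e1, sub_eq_zero] at hj
  have h4 : ZMod.stdAddChar (N := p) 0 = ZMod.stdAddChar ((μ 1)⁻¹ * μ (ξ j)) := by
    rw [← hj, AddChar.map_zero_eq_one]
  have h5 := ZMod.injective_stdAddChar h4
  exact mul_ne_zero (inv_ne_zero hμ1) (hμj j) h5.symm

end

end Pool.Agent.Q42.SM
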