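import Mathlib
import Pool.Agent.Q49.RB.T3
import Pool.Agent.Q49.RB.Event
import Pool.Agent.Q42.SM.Core

/-!
# From integral alternating sums of binomial coefficients to the residue fields
-/

set_option autoImplicit false

namespace Pool.Agent.Q42.SM

open Finset Polynomial Pool.Agent.Q49.RB

/-- Fermat's little theorem: `(N ^ p - N) / p` is an integer -/
theorem fermat_div {p : ℕ} (hp : p.Prime) (N : ℕ) : ∃ z : ℤ, (1 / (p : ℂ)) * ((N : ℂ) ^ p - N) = z := by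
  have : Fact p.Prime := ⟨hp⟩
  have h1 : ((p : ℕ) : ℤ) ∣ ((N : ℤ) ^ p - N) := by
    rw [← ZMod.intCast_zmod_eq_zero_iff_dvd]
    push_cast
    rw [ZMod.pow_card, sub_self]
  obtain ⟨z, hz⟩ := h1
  refine ⟨z, ?_⟩
  have hp0 : (p : ℂ) ≠ 0 := by exact_mod_cast hp.ne_zero
  have h2 : ((N : ℂ) ^ p - N) = p * z := by exact_mod_cast hz
  rw [h2]
  field_simp

/-- the alternating sums of the `(y ^ p - y) y ^ j` are divisible by `p` -/
theorem moment {r : ℕ} (n p j : ℕ) (hp : p.Prime) (hj : p + j ≤ n) (η : Fin r → ℂ)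
    (hI : Integral n (fun S : Finset (Fin r) => (-1 : ℤ) ^ S.card) (fun S => ∑ i ∈ S, η i)) :
    ∃ z : ℤ, ∑ S : Finset (Fin r), (-1 : ℂ) ^ S.card *
      (((∑ i ∈ S, η i) ^ p - ∑ i ∈ S, η i) * (∑ i ∈ S, η i) ^ j) = p * z := by
  obtain ⟨z, hz⟩ := hI.poly (C (1 / (p : ℂ)) * (X ^ p - X) * X ^ j) (by
    refine natDegree_mul_le.trans ?_
    rw [natDegree_X_pow]
    have h1 : (C (1 / (p : ℂ)) * (X ^ p - X)).natDegree ≤ p := by
      refine (natDegree_C_mul_le _ _).trans ?_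
      refine (natDegree_sub_le _ _).trans ?_
      rw [natDegree_X_pow, natDegree_X]
      exact max_le le_rfl hp.one_lt.le
    omega) (by
    intro N
    obtain ⟨z, hz⟩ := fermat_div hp N
    refine ⟨z * (N : ℤ) ^ j, ?_⟩
    simp only [eval_mul, eval_C, eval_sub, eval_pow, eval_X]
    rw [hz]
    push_cast
    ring)
  refine ⟨z, ?_⟩
  have hp0 : (p : ℂ) ≠ 0 := by exact_mod_cast hp.ne_zero
  rw [← hz, mul_sum]
  refine sum_congr rfl fun S _ => ?_
  simp only [eval_mul, eval_C, eval_sub, eval_pow, eval_X]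
  push_cast
  field_simp

variable {F : Type} [Field F]

/-- the reduction of an algebraic integer -/
def rd (φ : integralClosure ℤ ℂ →+* F) {r : ℕ} (η : Fin r → ℂ) (hη : ∀ i, IsIntegral ℤ (η i))
    (i : Fin r) : F := φ ⟨η i, hη i⟩

theorem red_moment {r : ℕ} (n p j : ℕ) (hp : p.Prime) [CharP F p] (hj : p + j ≤ n) (η : Fin r → ℂ)
    (hη : ∀ i, IsIntegral ℤ (η i)) (φ : integralClosure ℤ ℂ →+* F)
    (hI : Integral n (fun S : Finset (Fin r) => (-1 : ℤ) ^ S.card) (fun S => ∑ i ∈ S, η i)) :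
    ∑ S : Finset (Fin r), (-1 : F) ^ S.card *
      (((∑ i ∈ S, rd φ η hη i) ^ p - ∑ i ∈ S, rd φ η hη i) * (∑ i ∈ S, rd φ η hη i) ^ j) = 0 := by
  obtain ⟨z, hz⟩ := moment n p j hp hj η hI
  set a : Fin r → integralClosure ℤ ℂ := fun i => ⟨η i, hη i⟩ with ha
  have h1 : ∑ S : Finset (Fin r), (-1 : integralClosure ℤ ℂ) ^ S.card *
      (((∑ i ∈ S, a i) ^ p - ∑ i ∈ S, a i) * (∑ i ∈ S, a i) ^ j) =
      ((p : ℕ) : integralClosure ℤ ℂ) * ((z : ℤ) : integralClosure ℤ ℂ) := by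
    apply Subtype.ext
    push_cast
    rw [← hz]
  have h2 := congrArg φ h1
  simp only [map_sum, map_mul, map_pow, map_sub, map_neg, map_one, map_natCast,
    CharP.cast_eq_zero, zero_mul] at h2
  exact h2

theorem red_poly {r : ℕ} (n p : ℕ) (hp : p.Prime) [CharP F p] (hn : p ≤ n) (η : Fin r → ℂ)
    (hη : ∀ i, IsIntegral ℤ (η i)) (φ : integralClosure ℤ ℂ →+* F)
    (hI : Integral n (fun S : Finset (Fin r) => (-1 : ℤ) ^ S.card) (fun S => ∑ i ∈ S, η i))
    (H : F[X]) (hH : H.natDegree ≤ n - p) :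
    ∑ S : Finset (Fin r), (-1 : F) ^ S.card *
      (((∑ i ∈ S, rd φ η hη i) ^ p - ∑ i ∈ S, rd φ η hη i) *
        H.eval (∑ i ∈ S, rd φ η hη i)) = 0 := by
  have h1 : ∀ x : F, H.eval x = ∑ j ∈ range (n - p + 1), H.coeff j * x ^ j := fun x =>
    eval_eq_sum_range' (by omega) x
  simp only [h1, mul_sum]
  rw [sum_comm]
  refine sum_eq_zero fun j hj => ?_
  have h2 := red_moment n p j hp (by rw [mem_range] at hj; omega) η hη φ hI
  calc _ = H.coeff j * ∑ S : Finset (Fin r), (-1 : F) ^ S.card *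
      (((∑ i ∈ S, rd φ η hη i) ^ p - ∑ i ∈ S, rd φ η hη i) * (∑ i ∈ S, rd φ η hη i) ^ j) := by
        rw [mul_sum]
        refine sum_congr rfl fun S _ => ?_
        ring
    _ = 0 := by rw [h2, mul_zero]

/-- **Reductions of the Chern roots.** -/
theorem reduction {r : ℕ} (n p : ℕ) (hp : p.Prime) [CharP F p] (hpr : 2 ^ r < p)
    (hn : p + 2 ^ r ≤ n + 1) (η : Fin r → ℂ)
    (hη : ∀ i, IsIntegral ℤ (η i)) (φ : integralClosure ℤ ℂ →+* F)
    (hI : Integral n (fun S : Finset (Fin r) => (-1 : ℤ) ^ S.card) (fun S => ∑ i ∈ S, η i))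
    (h0 : ∀ i, rd φ η hη i ≠ 0) (i : Fin r) : rd φ η hη i ^ p = rd φ η hη i := by
  classical
  have : Fact p.Prime := ⟨hp⟩
  have h2r : 1 ≤ 2 ^ r := Nat.one_le_two_pow
  have hr : r + 1 ≤ 2 ^ r := Nat.lt_two_pow_self
  refine all_fixed (rd φ η hη) (by omega) h0 (fun g hg => ?_) i
  refine alt_fun (p := p) (rd φ η hη) (fun x hx => ?_) g hg
  exact fib_zero (n - p) (rd φ η hη) hpr (by omega)
    (fun H hH => red_poly n p hp (by omega) η hη φ hI H hH) x hx

end Pool.Agent.Q42.SM
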