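import Mathlib
import Pool.Agent.Q42.SM.Num

/-!
# The Chern polynomial splits modulo `p`
-/

set_option autoImplicit false

namespace Pool.Agent.Q42.SM

open Finset Polynomial Pool.Agent.Q49.RB

/-- a residue field of characteristic `p` of the ring of algebraic integers -/
theorem exists_residue {p : ℕ} (hp : p.Prime) : ∃ (F : Type) (_ : Field F) (_ : CharP F p)
    (_ : integralClosure ℤ ℂ →+* F), True := by
  have hne : Ideal.span {((p : ℕ) : integralClosure ℤ ℂ)} ≠ ⊤ := by
    intro h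
    rw [Ideal.span_singleton_eq_top] at h
    obtain ⟨u, hu⟩ := h.exists_right_inv
    have h1 : (p : ℂ) * (u : ℂ) = 1 := by
      have := congrArg (fun a : integralClosure ℤ ℂ => (a : ℂ)) hu
      simpa using this
    have hp0 : (p : ℂ) ≠ 0 := by exact_mod_cast hp.ne_zero
    have h2 : (u : ℂ) = ((1 / p : ℚ) : ℂ) := by
      push_cast
      rw [eq_div_iff hp0]
      linear_combination h1
    obtain ⟨k, hk⟩ := rational_int (u : ℂ) u.2 (1 / p) h2
    rw [hk] at h1
    have h3 : (p : ℤ) * k = 1 := by exact_mod_cast h1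
    have h4 : (p : ℤ) ∣ 1 := ⟨k, h3.symm⟩
    have h5 : p ∣ 1 := by exact_mod_cast h4
    exact hp.one_lt.ne' (Nat.dvd_one.1 h5)
  obtain ⟨M, hM, hle⟩ := Ideal.exists_le_maximal _ hne
  refine ⟨integralClosure ℤ ℂ ⧸ M, Ideal.Quotient.field M, ?_, Ideal.Quotient.mk M, trivial⟩
  let _ : Field (integralClosure ℤ ℂ ⧸ M) := Ideal.Quotient.field M
  have h0 : ((p : ℕ) : integralClosure ℤ ℂ ⧸ M) = 0 := by
    have : Ideal.Quotient.mk M ((p : ℕ) : integralClosure ℤ ℂ) = 0 :=
      Ideal.Quotient.eq_zero_iff_mem.2 (hle (Ideal.mem_span_singleton_self _))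
    rwa [map_natCast] at this
  exact ringChar.of_eq (CharP.ringChar_of_prime_eq_zero hp h0)

section

variable {r : ℕ} {δ : Fin r → ℂ} {c : ℕ → ℤ}

theorem prod_root (h : ∏ i, (1 + C (δ i) * X) = ∑ j ∈ range (r + 1), C ((c j : ℤ) : ℂ) * X ^ j) :
    ∏ i, δ i = c r := by
  have h1 : (∏ i, (1 + C (δ i) * X) : ℂ[X]).coeff r =
      (∑ j ∈ range (r + 1), C ((c j : ℤ) : ℂ) * X ^ j : ℂ[X]).coeff r := by rw [h]
  have h2 : (∏ i, (1 + C (δ i) * X) : ℂ[X]).coeff r = ∏ i, δ i := by
    have h3 := coeff_prod_of_natDegree_le (univ : Finset (Fin r)) (fun i => 1 + C (δ i) * X) 1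
      (by
        intro i _
        refine (natDegree_add_le _ _).trans ?_
        rw [natDegree_one]
        exact max_le (Nat.zero_le _) ((natDegree_C_mul_le _ _).trans natDegree_X_le))
    rw [card_univ, Fintype.card_fin, mul_one] at h3
    rw [h3]
    refine prod_congr rfl fun i _ => ?_
    rw [coeff_add, coeff_C_mul, coeff_X_one, coeff_one, if_neg (by norm_num)]
    ring
  rw [h2] at h1
  rw [h1, finsetSum_coeff]
  simp only [coeff_C_mul, coeff_X_pow]
  rw [sum_eq_single r]
  · simp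
  · intro j _ hj
    rw [if_neg (fun h => hj h.symm), mul_zero]
  · intro h
    exact absurd (mem_range.2 (Nat.lt_succ_self r)) h

/-- all reductions of the Chern roots lie in the prime field -/
theorem roots_fixed {F : Type} [Field F] (n p : ℕ) (hp : p.Prime) [CharP F p] (hpr : 2 ^ r < p)
    (hn : p + 2 ^ r ≤ n + 1)
    (h : ∏ i, (1 + C (δ i) * X) = ∑ j ∈ range (r + 1), C ((c j : ℤ) : ℂ) * X ^ j)
    (hI : Integral n (fun S : Finset (Fin r) => (-1 : ℤ) ^ S.card) (fun S => ∑ i ∈ S, -δ i))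
    (hc : ¬ (p : ℤ) ∣ c r) (φ : integralClosure ℤ ℂ →+* F) (i : Fin r) :
    φ ⟨δ i, root_integral h i⟩ ^ p = φ ⟨δ i, root_integral h i⟩ := by
  have hη : ∀ i, IsIntegral ℤ (-δ i) := fun i => (root_integral h i).neg
  have hneg : ∀ i, rd φ (fun i => -δ i) hη i = -φ ⟨δ i, root_integral h i⟩ := by
    intro i
    unfold rd
    rw [← map_neg]
    rfl
  have h1 := reduction n p hp hpr hn (fun i => -δ i) hη φ hI (by
    intro i hi
    rw [hneg, neg_eq_zero] at hi
    apply hc
    rw [← CharP.intCast_eq_zero_iff F p]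
    have h2 : (∏ i, (⟨δ i, root_integral h i⟩ : integralClosure ℤ ℂ)) =
        ((c r : ℤ) : integralClosure ℤ ℂ) := by
      apply Subtype.ext
      push_cast
      exact prod_root h
    have h3 := congrArg φ h2
    rw [map_prod, prod_eq_zero (mem_univ i) hi, map_intCast] at h3
    exact h3.symm) i
  rw [hneg] at h1
  have hodd : Odd p := by
    refine hp.odd_of_ne_two ?_
    have : 1 ≤ 2 ^ r := Nat.one_le_two_pow
    by_contra h2
    rw [h2] at hpr
    have hr0 : r = 0 := by
      by_contra hr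
      have : 2 ≤ 2 ^ r := by
        calc 2 = 2 ^ 1 := rfl
          _ ≤ 2 ^ r := Nat.pow_le_pow_right (by norm_num) (by omega)
      omega
    subst hr0
    exact i.elim0
  rw [hodd.neg_pow, neg_inj] at h1
  exact h1

/-- **The Chern polynomial splits modulo `p`.** -/
theorem splits_mod (n p : ℕ) (hp : p.Prime) (hpr : 2 ^ r < p)
    (hn : p + 2 ^ r ≤ n + 1)
    (h : ∏ i, (1 + C (δ i) * X) = ∑ j ∈ range (r + 1), C ((c j : ℤ) : ℂ) * X ^ j)
    (hI : Integral n (fun S : Finset (Fin r) => (-1 : ℤ) ^ S.card) (fun S => ∑ i ∈ S, -δ i))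
    (hc : ¬ (p : ℤ) ∣ c r) :
    ∃ d : Fin r → ℤ, (∏ i, (1 + C (d i) * X)).map (Int.castRingHom (ZMod p)) =
      (∑ j ∈ range (r + 1), C (c j) * (X : ℤ[X]) ^ j).map (Int.castRingHom (ZMod p)) := by
  have : Fact p.Prime := ⟨hp⟩
  obtain ⟨F, iF, iC, φ, -⟩ := exists_residue hp
  let _ : Algebra (ZMod p) F := ZMod.algebra F p
  have h1 : ∀ i, ∃ d : ℤ, φ ⟨δ i, root_integral h i⟩ = (d : F) := by
    intro i
    obtain ⟨a, ha⟩ := frob_fixed (p := p) _ (roots_fixed n p hp hpr hn h hI hc φ i)
    refine ⟨(a.val : ℤ), ?_⟩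
    rw [ha, Algebra.smul_def, mul_one]
    have h2 : a = ((a.val : ℕ) : ZMod p) := (ZMod.natCast_zmod_val a).symm
    conv_lhs => rw [h2]
    rw [map_natCast]
    push_cast
    rfl
  choose d hd using h1
  refine ⟨d, ?_⟩
  apply Polynomial.map_injective (algebraMap (ZMod p) F) (algebraMap (ZMod p) F).injective
  rw [Polynomial.map_map, Polynomial.map_map]
  -- the identity over the algebraic integers
  have h2 : (∏ i, (1 + C (⟨δ i, root_integral h i⟩ : integralClosure ℤ ℂ) * X)) =
      ∑ j ∈ range (r + 1), C ((c j : ℤ) : integralClosure ℤ ℂ) * X ^ j := by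
    apply Polynomial.map_injective (algebraMap (integralClosure ℤ ℂ) ℂ)
      (FaithfulSMul.algebraMap_injective _ _)
    rw [Polynomial.map_prod, Polynomial.map_sum]
    have e1 : ∏ i, Polynomial.map (algebraMap (integralClosure ℤ ℂ) ℂ)
        (1 + C (⟨δ i, root_integral h i⟩ : integralClosure ℤ ℂ) * X) =
        ∏ i, (1 + C (δ i) * X) := by
      refine prod_congr rfl fun i _ => ?_
      simp only [Polynomial.map_add, Polynomial.map_one, Polynomial.map_mul, map_C, map_X]
      rfl
    rw [e1, h]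
    refine sum_congr rfl fun j _ => ?_
    rw [Polynomial.map_mul, Polynomial.map_C, Polynomial.map_pow, Polynomial.map_X]
    congr 2
  have h3 := congrArg (Polynomial.map φ) h2
  rw [Polynomial.map_prod, Polynomial.map_sum] at h3
  have e3 : ∀ i, Polynomial.map φ (1 + C (⟨δ i, root_integral h i⟩ : integralClosure ℤ ℂ) * X) =
      1 + C ((d i : ℤ) : F) * X := by
    intro i
    rw [Polynomial.map_add, Polynomial.map_one, Polynomial.map_mul, Polynomial.map_C,
      Polynomial.map_X, hd]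
  have e4 : ∀ j, Polynomial.map φ (C ((c j : ℤ) : integralClosure ℤ ℂ) * X ^ j) =
      C ((c j : ℤ) : F) * X ^ j := by
    intro j
    rw [Polynomial.map_mul, Polynomial.map_C, Polynomial.map_pow, Polynomial.map_X]
    congr 2
    rw [map_intCast]
  rw [prod_congr rfl fun i _ => e3 i, sum_congr rfl fun j _ => e4 j] at h3
  rw [Polynomial.map_prod, Polynomial.map_sum]
  have e5 : ∀ i, Polynomial.map ((algebraMap (ZMod p) F).comp (Int.castRingHom (ZMod p)))
      (1 + C (d i) * X) = 1 + C ((d i : ℤ) : F) * X := by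
    intro i
    rw [Polynomial.map_add, Polynomial.map_one, Polynomial.map_mul, Polynomial.map_C,
      Polynomial.map_X]
    congr 3
    exact eq_intCast _ _
  have e6 : ∀ j, Polynomial.map ((algebraMap (ZMod p) F).comp (Int.castRingHom (ZMod p)))
      (C (c j) * X ^ j) = C ((c j : ℤ) : F) * X ^ j := by
    intro j
    rw [Polynomial.map_mul, Polynomial.map_C, Polynomial.map_pow, Polynomial.map_X]
    congr 2
    exact eq_intCast _ _
  rw [prod_congr rfl fun i _ => e5 i, sum_congr rfl fun j _ => e6 j]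
  exact h3

end

end Pool.Agent.Q42.SM
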