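import Mathlib
import Pool.Agent.Q42.SM.Split

/-!
# All primes at once
-/

set_option autoImplicit false

namespace Pool.Agent.Q42.SM

open Finset Polynomial Pool.Agent.Q49.RB

theorem map_eq_iff (p : ℕ) (f g : ℤ[X]) (h : f.map (Int.castRingHom (ZMod p)) =
    g.map (Int.castRingHom (ZMod p))) (j : ℕ) : (p : ℤ) ∣ f.coeff j - g.coeff j := by
  have h1 : (f.map (Int.castRingHom (ZMod p))).coeff j = (g.map (Int.castRingHom (ZMod p))).coeff j := by
    rw [h]
  rw [coeff_map, coeff_map, eq_intCast, eq_intCast] at h1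
  have h2 := (ZMod.intCast_eq_intCast_iff_dvd_sub _ _ p).1 h1.symm
  exact h2

theorem coeff_chern (r : ℕ) (c : ℕ → ℤ) (j : ℕ) (hj : j ≤ r) :
    (∑ j ∈ range (r + 1), C (c j) * (X : ℤ[X]) ^ j).coeff j = c j := by
  rw [finsetSum_coeff]
  simp only [coeff_C_mul, coeff_X_pow]
  rw [sum_eq_single j]
  · simp
  · intro i _ hi
    rw [if_neg (fun h => hi h.symm), mul_zero]
  · intro h
    exact absurd (mem_range.2 (by omega)) h

/-- the coefficients of the product depend only on the `d_i` modulo `p` -/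
theorem coeff_congr {r : ℕ} (p : ℕ) (d e : Fin r → ℤ) (h : ∀ i, (p : ℤ) ∣ d i - e i) (j : ℕ) :
    (p : ℤ) ∣ (∏ i, (1 + C (d i) * X) : ℤ[X]).coeff j - (∏ i, (1 + C (e i) * X) : ℤ[X]).coeff j := by
  apply map_eq_iff
  rw [Polynomial.map_prod, Polynomial.map_prod]
  refine prod_congr rfl fun i _ => ?_
  have h1 : ((d i : ℤ) : ZMod p) = ((e i : ℤ) : ZMod p) := by
    rw [eq_comm]
    exact (ZMod.intCast_eq_intCast_iff_dvd_sub _ _ p).2 (h i)
  rw [Polynomial.map_add, Polynomial.map_one, Polynomial.map_mul, Polynomial.map_C,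
    Polynomial.map_X, Polynomial.map_add, Polynomial.map_one, Polynomial.map_mul, Polynomial.map_C,
    Polynomial.map_X, eq_intCast, eq_intCast, h1]

/-- Chinese remainders -/
theorem crt (Q : Finset ℕ) (hQ : ∀ p ∈ Q, p.Prime) (a : ℕ → ℤ) :
    ∃ z : ℤ, ∀ p ∈ Q, (p : ℤ) ∣ z - a p := by
  classical
  induction Q using Finset.induction_on with
  | empty => exact ⟨0, by simp⟩
  | insert q Q hq ih =>
    obtain ⟨z, hz⟩ := ih fun p hp => hQ p (mem_insert_of_mem hp)
    have hcop : IsCoprime (q : ℤ) (∏ p ∈ Q, (p : ℤ)) := by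
      refine IsCoprime.prod_right fun p hp => ?_
      rw [Nat.isCoprime_iff_coprime]
      exact (Nat.coprime_primes (hQ q (mem_insert_self _ _)) (hQ p (mem_insert_of_mem hp))).2
        (fun h => hq (h ▸ hp))
    obtain ⟨u, v, huv⟩ := hcop
    refine ⟨z + (a q - z) * (v * ∏ p ∈ Q, (p : ℤ)), fun p hp => ?_⟩
    rcases mem_insert.1 hp with rfl | hp
    · refine ⟨(z - a p) * u, ?_⟩
      linear_combination (a p - z) * huv
    · have h1 : (p : ℤ) ∣ ∏ p ∈ Q, (p : ℤ) := dvd_prod_of_mem (fun p : ℕ => (p : ℤ)) hp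
      obtain ⟨w, hw⟩ := hz p hp
      obtain ⟨t, ht⟩ := h1
      refine ⟨w + (a q - z) * v * t, ?_⟩
      rw [ht]
      linear_combination hw

theorem prod_dvd (Q : Finset ℕ) (hQ : ∀ p ∈ Q, p.Prime) (x : ℤ) (h : ∀ p ∈ Q, (p : ℤ) ∣ x) :
    ((∏ p ∈ Q, p : ℕ) : ℤ) ∣ x := by
  push_cast
  refine Finset.prod_dvd_of_coprime ?_ h
  intro p hp q hq hpq
  show IsCoprime (p : ℤ) (q : ℤ)
  rw [Nat.isCoprime_iff_coprime]
  exact (Nat.coprime_primes (hQ p hp) (hQ q hq)).2 hpq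

/-- **Numerically a complete intersection modulo the product of the primes.** -/
theorem all_primes {r : ℕ} {δ : Fin r → ℂ} {c : ℕ → ℤ} (n : ℕ)
    (h : ∏ i, (1 + C (δ i) * X) = ∑ j ∈ range (r + 1), C ((c j : ℤ) : ℂ) * X ^ j)
    (hI : Integral n (fun S : Finset (Fin r) => (-1 : ℤ) ^ S.card) (fun S => ∑ i ∈ S, -δ i))
    (Q : Finset ℕ) (hQ : ∀ p ∈ Q, p.Prime ∧ 2 ^ r < p ∧ p + 2 ^ r ≤ n + 1 ∧
      (r ≤ 2 ∨ ¬ (p : ℤ) ∣ c r)) :
    ∃ d : Fin r → ℤ, ∀ j ≤ r,
      ((∏ p ∈ Q, p : ℕ) : ℤ) ∣ (∏ i, (1 + C (d i) * X) : ℤ[X]).coeff j - c j := by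
  classical
  -- for one prime
  have h1 : ∀ p ∈ Q, ∃ d : Fin r → ℤ, ∀ j ≤ r,
      (p : ℤ) ∣ (∏ i, (1 + C (d i) * X) : ℤ[X]).coeff j - c j := by
    intro p hp
    obtain ⟨hp1, hp2, hp3, hp4⟩ := hQ p hp
    by_cases hc : (p : ℤ) ∣ c r
    swap
    · obtain ⟨d, hd⟩ := splits_mod n p hp1 hp2 hp3 h hI hc
      refine ⟨d, fun j hj => ?_⟩
      have := map_eq_iff p _ _ hd j
      rwa [coeff_chern r c j hj] at this
    · have hr : r ≤ 2 := by
        rcases hp4 with h | h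
        exacts [h, absurd hc h]
      have hc0 := c_zero h
      interval_cases r
      · refine ⟨fun i => i.elim0, fun j hj => ?_⟩
        interval_cases j
        simp [hc0]
      · refine ⟨fun _ => c 1, fun j hj => ?_⟩
        interval_cases j
        · simp [hc0]
        · simp [coeff_one]
      · refine ⟨![c 1, 0], fun j hj => ?_⟩
        rw [Fin.prod_univ_two]
        simp only [Matrix.cons_val_zero, Matrix.cons_val_one, map_zero, zero_mul, add_zero, mul_one]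
        interval_cases j
        · simp [hc0]
        · simp [coeff_one]
        · have h2 : (1 + C (c 1) * X : ℤ[X]).coeff 2 = 0 := by
            rw [coeff_add, coeff_C_mul, coeff_X, coeff_one]
            norm_num
          rw [h2]
          simpa using hc
  have h1' : ∀ p : ℕ, ∃ d : Fin r → ℤ, p ∈ Q → ∀ j ≤ r,
      (p : ℤ) ∣ (∏ i, (1 + C (d i) * X) : ℤ[X]).coeff j - c j := by
    intro p
    by_cases hp : p ∈ Q
    · obtain ⟨d, hd⟩ := h1 p hp
      exact ⟨d, fun _ => hd⟩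
    · exact ⟨0, fun h => absurd h hp⟩
  choose e he using h1'
  have h2 : ∀ i, ∃ z : ℤ, ∀ p ∈ Q, (p : ℤ) ∣ z - e p i := fun i =>
    crt Q (fun p hp => (hQ p hp).1) fun p => e p i
  choose d hd using h2
  refine ⟨d, fun j hj => prod_dvd Q (fun p hp => (hQ p hp).1) _ fun p hp => ?_⟩
  have h3 := coeff_congr p d (e p) (fun i => hd i p hp) j
  have h4 := he p hp j hj
  have := dvd_add h3 h4
  rwa [sub_add_sub_cancel] at this

end Pool.Agent.Q42.SM
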