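import Mathlib

/-!
# Nonsingular subvarieties of projective space and the Chern classes of their normal bundles
-/

set_option autoImplicit false

namespace Pool.Agent.Q42.SM

open Finset

/-- The polynomial ring `ℂ[x_0, …, x_n]`. -/
abbrev Poly (n : ℕ) : Type := MvPolynomial (Fin (n + 1)) ℂ

/-- The common zeros in `ℂ^(n + 1)` of the polynomials in `I`: the affine cone over the projective
variety `X` when `I` is the homogeneous ideal of `X`. -/
def cone {n : ℕ} (I : Ideal (Poly n)) : Set (Fin (n + 1) → ℂ) :=
  {x | ∀ F ∈ I, MvPolynomial.eval x F = 0}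

/-- The conormal space of `X` at `x`: the span of the gradients at `x` of the elements of `I`. -/
noncomputable def conormal {n : ℕ} (I : Ideal (Poly n)) (x : Fin (n + 1) → ℂ) :
    Submodule ℂ (Fin (n + 1) → ℂ) :=
  Submodule.span ℂ {ξ | ∃ F ∈ I, ξ = fun i => MvPolynomial.eval x (MvPolynomial.pderiv i F)}

/-- `I` is the homogeneous ideal of a nonsingular irreducible closed subvariety `X` of
codimension `r` of the complex projective space `P^n`: it is a homogeneous prime ideal, `X` is not
empty, and at every point of `X` the gradients of the elements of `I` span a space of dimension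
`r` (Jacobian criterion). -/
structure IsSmoothVariety (n r : ℕ) (I : Ideal (Poly n)) : Prop where
  prime : I.IsPrime
  homogeneous : ∀ F ∈ I, ∀ d, MvPolynomial.homogeneousComponent d F ∈ I
  nonempty : ∃ x ∈ cone I, x ≠ 0
  smooth : ∀ x ∈ cone I, x ≠ 0 → Module.finrank ℂ (conormal I x) = r

/-- The Hilbert function of `X`: the dimension of the space of the elements of degree `k` of
the homogeneous coordinate ring. -/
noncomputable def hilb {n : ℕ} (I : Ideal (Poly n)) (k : ℕ) : ℕ :=
  Module.finrank ℂ ((MvPolynomial.homogeneousSubmodule (Fin (n + 1)) ℂ k).map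
    (Ideal.Quotient.mkₐ ℂ I).toLinearMap)

/-- the binomial coefficient `x (x - 1) ⋯ (x - m + 1) / m!` of a complex number `x` -/
noncomputable def binomial (x : ℂ) (m : ℕ) : ℂ :=
  (∏ i ∈ range m, (x - i)) / (m.factorial : ℂ)

open Polynomial in
/-- `c_1 h, …, c_r h ^ r` are the Chern classes of the normal bundle of `X`, and `δ_1, …, δ_r` are
its Chern roots, where `h` is the hyperplane class, in terms of the Hilbert function:
`1 + c_1 T + ⋯ + c_r T ^ r` is the product of the `1 + δ_i T`, and by Hirzebruch-Riemann-Roch the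
Hilbert polynomial of `X` is the alternating sum of the binomial coefficients
`(n + k - ∑_{i ∈ S} δ_i, n)`, where `S` are the subsets of `{1, …, r}`. -/
def IsNormalChern {n : ℕ} (r : ℕ) (I : Ideal (Poly n)) (c : ℕ → ℤ) (δ : Fin r → ℂ) : Prop :=
  ∏ i, (1 + C (δ i) * X) = ∑ j ∈ range (r + 1), C ((c j : ℤ) : ℂ) * X ^ j ∧
    ∃ k₀ : ℕ, ∀ k ≥ k₀, (hilb I k : ℂ) =
      ∑ S : Finset (Fin r), (-1) ^ S.card * binomial (n + k - ∑ i ∈ S, δ i) n

/-- `c_1 h, …, c_r h ^ r` are the Chern classes of the normal bundle of `X`. -/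
def HasNormalChernClasses {n : ℕ} (r : ℕ) (I : Ideal (Poly n)) (c : ℕ → ℤ) : Prop :=
  ∃ δ : Fin r → ℂ, IsNormalChern r I c δ

end Pool.Agent.Q42.SM
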