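import Mathlib
import Pool.Agent.Q42.SM.Defs
import Pool.Agent.Q49.RB.Event

/-!
# Integrality of the Hilbert polynomial
-/

set_option autoImplicit false

namespace Pool.Agent.Q42.SM

open Finset Pool.Agent.Q49.RB

theorem integral_of_chern {n r : ℕ} {I : Ideal (Poly n)} {c : ℕ → ℤ} {δ : Fin r → ℂ}
    (h : IsNormalChern r I c δ) :
    Integral n (fun S : Finset (Fin r) => (-1 : ℤ) ^ S.card) (fun S => ∑ i ∈ S, -δ i) := by
  obtain ⟨-, k₀, hk⟩ := h
  refine integral_of_large n _ _ ((n : ℤ) + k₀) fun k hk' => ?_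
  obtain ⟨m, rfl⟩ : ∃ m : ℕ, k = (n : ℤ) + m := ⟨(k - n).toNat, by omega⟩
  refine ⟨(hilb I m : ℤ), ?_⟩
  have h1 := hk m (by omega)
  push_cast
  rw [h1]
  refine sum_congr rfl fun S _ => ?_
  congr 1
  have h2 : (n : ℂ) + m + ∑ i ∈ S, -δ i = n + m - ∑ i ∈ S, δ i := by
    rw [sum_neg_distrib]
    ring
  rw [h2]
  rfl

end Pool.Agent.Q42.SM
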